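import Pool.Agent.Y128.SJ.Defs
import Pool.Agent.H204R3.SP.Lie
import Pool.Agent.W522.U.B2

/-!
# Products of Jacobians of cyclic coverings of the projective line: definitions

`K` is the algebraic closure of the coefficient field `k` (`ℚ_ℓ`). `Γ` is the Galois group of a number
field which contains the necessary roots of unity.
-/

set_option autoImplicit false

namespace Pool.Agent.Y128.CY

open Module TensorProduct Polynomial Pool.Agent.H204R3.GP Pool.Agent.H204R3.SP
  Pool.Agent.W522.U Pool.Agent.Y128.SJ

/-- The data of a cyclic covering `y ^ n = ∏ (x - a_t) ^ (m_t)` of the projective line (with a further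
factor for the point at infinity, if it is a branch point): the degree `n ≥ 3`, the number of
branch points, at least five, and the exponents `m_t`, nonzero residues modulo `n` with sum
zero. -/
structure Covering where
  degree : ℕ
  branchPoints : ℕ
  exponent : Fin branchPoints → ZMod degree
  three_le : 3 ≤ degree
  five_le : 5 ≤ branchPoints
  ne_zero : ∀ t, exponent t ≠ 0
  sum_zero : ∑ t, exponent t = 0

/-- The dimension of the eigenspaces of the automorphism for primitive roots of unity. -/
def Covering.rank (C : Covering) : ℕ := C.branchPoints - 2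

/-- The representative of `x` between `0` and `n - 1`, divided by `n`. -/
def frac {n : ℕ} (x : ZMod n) : ℚ := x.val / n

/-- The Hodge number `∑ ⟨s m_t / n⟩ - 1` of the eigenspace with the number `s` (Hurwitz, Chevalley,
Weil). -/
def Covering.hodge (C : Covering) (s : ZMod C.degree) : ℚ := ∑ t, frac (s * C.exponent t) - 1

section one

variable {k V Γ : Type} [Field k] [AddCommGroup V] [Module k V] [Group Γ]

/-- Properties of the rational Tate module `V` of the primitive part (on which the automorphism acts
with primitive `n`-th roots of unity as eigenvalues) of the Jacobian of a cyclic covering of the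
line with the data `C`, with the Galois action `ρ`, the cyclotomic character `χ`, the Weil pairing
`ω` and the automorphism `σ`; `ρ` is semisimple on all subgroups of finite index (Faltings). -/
structure TateModule (C : Covering) (ρ : Representation k Γ V) (χ : Γ →* k)
    (ω : V →ₗ[k] V →ₗ[k] k) (σ : Module.End k V) : Prop where
  pairing : WeilPairing ρ χ ω σ
  comm : ∀ s, ρ s * σ = σ * ρ s
  cyclotomic : aeval σ (cyclotomic C.degree k) = 0
  dim : ∀ z, IsPrimitiveRoot z C.degree → finrank (AlgebraicClosure k) (eig σ z) = C.rank
  semisimple : FiniteIndexSemisimple ρ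

/-- `g` acts as a reflection for the ring generated by the automorphism `σ` of order `n`: it maps `v`
to `σ ^ i v` or `-σ ^ i v`, where `i` is prime to `n`, and `g x - x` is a combination of the `σ ^ j v`
for all `x`; the `σ ^ j v`, `j < φ(n)`, are linearly independent. -/
def IsReflection (n : ℕ) (σ : Module.End k V) (g : Module.End k V) : Prop :=
  ∃ v : V, LinearIndependent k (fun j : Fin n.totient => (σ ^ (j : ℕ)) v) ∧
    (∃ i : ℕ, i.Coprime n ∧ (g v = (σ ^ i) v ∨ g v = -(σ ^ i) v)) ∧
    ∀ x, g x - x ∈ Submodule.span k (Set.range fun j : ℕ => (σ ^ j) v)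

end one

section family

variable {k : Type} [Field k] {Γ : Type} [Group Γ] {ι : Type} [Fintype ι] [DecidableEq ι]
  {V : ι → Type} [∀ c, AddCommGroup (V c)] [∀ c, Module k (V c)]

/-- The least common multiple of the degrees. -/
def level (C : ι → Covering) : ℕ := Finset.univ.lcm fun c => (C c).degree

/-- For every factor there is a (Frobenius) element which is semisimple on all factors (Weil) and has
two eigenvalues in each eigenspace of `σ c` whose quotient is not a root of unity. -/
def HasFrobenius (C : ι → Covering) (ρ : ∀ c, Representation k Γ (V c))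
    (σ : ∀ c, Module.End k (V c)) : Prop :=
  ∀ c, ∃ F : Γ, (∀ c', Module.End.IsSemisimple (ρ c' F)) ∧
    ∀ z, IsPrimitiveRoot z (C c).degree →
      ∃ u ∈ eig (σ c) z, ∃ v ∈ eig (σ c) z, u ≠ 0 ∧ v ≠ 0 ∧ ∃ a b : AlgebraicClosure k,
        ext (ρ c F) u = a • u ∧ ext (ρ c F) v = b • v ∧ ∀ m : ℕ, 0 < m → a ^ m ≠ b ^ m

/-- There is a (Frobenius) element `γ`, of a place over a prime `q` congruent to one modulo the degrees
with `q ^ a` elements in the residue field, whose determinant on the eigenspace of `σ c` for each `z`
is `D_c(z)`, where `D_c` is a polynomial with rational coefficients, and the valuations of the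
`D_c(w_c ^ s)`, `w_c` a root of unity of order `degree` in `ℚ_q`, are `a` times the Hodge numbers of the
eigenspaces (the Newton polygon and the Hodge polygon have the same end point). -/
def HasHodgeNumbers [CharZero k] (C : ι → Covering) (ρ : ∀ c, Representation k Γ (V c))
    (χ : Γ →* k) (σ : ∀ c, Module.End k (V c)) : Prop :=
  ∃ (q a : ℕ) (_ : Fact q.Prime) (γ : Γ) (D : ι → ℚ[X]) (w : ℚ_[q]), 0 < a ∧
    χ γ = (q : k) ^ a ∧ IsPrimitiveRoot w (level C) ∧
    (∀ c, HasDeterminant (C c).degree (ρ c γ) (σ c) (D c)) ∧
    ∀ c, ∀ s : ℕ, s.Coprime (C c).degree →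
      ((aeval ((w ^ (level C / (C c).degree)) ^ s) (D c)).valuation : ℚ) = a * (C c).hodge s

/-- For every factor there is an (inertia) element which acts on it as a reflection and trivially on
the other factors. -/
def HasReflections (C : ι → Covering) (ρ : ∀ c, Representation k Γ (V c))
    (σ : ∀ c, Module.End k (V c)) : Prop :=
  ∀ c, ∃ g : Γ, IsReflection (C c).degree (σ c) (ρ c g) ∧ ∀ c' ≠ c, ρ c' g = 1

/-- The rational Tate module of the product of the factors, over the algebraic closure. -/
abbrev Sum (k : Type) [Field k] {ι : Type} (V : ι → Type) [∀ c, AddCommGroup (V c)]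
    [∀ c, Module k (V c)] : Type :=
  ∀ c, AlgebraicClosure k ⊗[k] V c

/-- The action of the Galois group on the product. -/
noncomputable def rep (ρ : ∀ c, Representation k Γ (V c)) :
    Representation (AlgebraicClosure k) Γ (Sum k V) :=
  piRep fun c => bcr (ρ c) (AlgebraicClosure k)

/-- The cyclotomic character with values in the closure. -/
noncomputable def chi (χ : Γ →* k) : Γ →* AlgebraicClosure k := bcc χ (AlgebraicClosure k)

/-- The eigenspace of `σ c` for `z` in the product. -/
noncomputable def eigIn (σ : ∀ c, Module.End k (V c)) (c : ι) (z : AlgebraicClosure k) :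
    Submodule (AlgebraicClosure k) (Sum k V) :=
  (eig (σ c) z).map (LinearMap.single (AlgebraicClosure k) (fun c => AlgebraicClosure k ⊗[k] V c) c)

/-- The Weil pairing of the product. -/
noncomputable def pairing (ω : ∀ c, V c →ₗ[k] V c →ₗ[k] k) (x y : Sum k V) : AlgebraicClosure k :=
  ∑ c, bcb (AlgebraicClosure k) (ω c) (x c) (y c)

/-- The family of residues `i_q m_t` is a Hodge character: for all `s` prime to the degrees the
representatives between zero and the degree of the `s i_q m_t`, divided by the degree, have
the average `1 / 2`. This is the condition of Shioda and Katsura for the corresponding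
eigenspace of the cohomology of the Fermat variety (of degree `level C` and dimension the number of
residues minus two) to consist of Hodge classes. -/
def IsHodgeCharacter (C : ι → Covering) {Q : Type} [Fintype Q]
    (κ : Q → Σ c, (ZMod (C c).degree)ˣ) : Prop :=
  ∀ s : ℕ, s.Coprime (level C) →
    ∑ q, ∑ t, frac ((s : ZMod (C (κ q).1).degree) * ((κ q).2 : ZMod (C (κ q).1).degree) *
      (C (κ q).1).exponent t) = (∑ q, ((C (κ q).1).branchPoints : ℚ)) / 2

end family

end Pool.Agent.Y128.CY
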