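import Pool.Agent.Y128.CY.Defs
import Pool.Agent.TH118.CR.Final

/-!
# Products of Jacobians of cyclic coverings: statements of the parts
-/

set_option autoImplicit false

namespace Pool.Agent.Y128.CY

open Module TensorProduct Polynomial Pool.Agent.H204R3.GP Pool.Agent.H204R3.SP
  Pool.Agent.W522.U Pool.Agent.Y128.SJ

/-- The eigenvalue with the number `j`. -/
def evn {Ω : Type} [Field Ω] {n : ℕ} (z₀ : Ω) (j : (ZMod n)ˣ) : Ω := z₀ ^ (j : ZMod n).val

/-- (EIG) The projections to the eigenspaces of an operator annihilated by the cyclotomic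
polynomial. -/
def S_EIG : Prop :=
  ∀ (Ω : Type) [Field Ω] [CharZero Ω] (X : Type) [AddCommGroup X] [Module Ω X]
    (n : ℕ) [NeZero n] (S : Module.End Ω X) (z₀ : Ω), IsPrimitiveRoot z₀ n →
    aeval S (cyclotomic n Ω) = 0 →
    ∃ P : (ZMod n)ˣ → Module.End Ω X,
      (∀ j, P j ∈ Algebra.adjoin Ω {S}) ∧
      (∀ j x, P j x ∈ Module.End.eigenspace S (evn z₀ j)) ∧
      (∀ j, ∀ x ∈ Module.End.eigenspace S (evn z₀ j), P j x = x) ∧
      (∀ j j', j ≠ j' → ∀ x ∈ Module.End.eigenspace S (evn z₀ j'), P j x = 0) ∧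
      ∑ j, P j = 1

/-- (REF) A reflection acts on the eigenspaces as a complex reflection. -/
def S_REF : Prop :=
  ∀ (k : Type) [Field k] [CharZero k] (V : Type) [AddCommGroup V] [Module k V]
    [FiniteDimensional k V] (Ω : Type) [Field Ω] [CharZero Ω] [Algebra k Ω] (n : ℕ), 3 ≤ n →
    ∀ (σ g : Module.End k V), aeval σ (cyclotomic n k) = 0 → IsReflection n σ g →
    g * σ = σ * g → ∀ z₀ : Ω, IsPrimitiveRoot z₀ n →
    ∃ ε : (ZMod n)ˣ → Ω, (∀ j, ∃ (d : Ω ⊗[k] V) (φ : (Ω ⊗[k] V) →ₗ[Ω] Ω),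
      d ∈ Module.End.eigenspace (σ.baseChange Ω) (evn z₀ j) ∧ φ d = 1 ∧
      ∀ u ∈ Module.End.eigenspace (σ.baseChange Ω) (evn z₀ j),
        g.baseChange Ω u = u + ((ε j - 1) * φ u) • d) ∧
      (∀ j, ε j ^ (2 * n) = 1 ∧ ε j ≠ 1 ∧ ε j ≠ -1) ∧ ∀ j j', ε j = ε j' → j = j'

/-- (NUM) The valuations of the determinants. -/
def S_NUM : Prop :=
  ∀ (K : Type) [Field K] [CharZero K] (ι : Type) [Fintype ι] [DecidableEq ι] (C : ι → Covering)
    (q a N d : ℕ) [Fact q.Prime] (w : ℚ_[q]) (z : K) (D : ι → ℚ[X]), 0 < a → 0 < N →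
    IsPrimitiveRoot w (level C) → IsPrimitiveRoot z (level C) →
    (∀ c, ∀ s : ℕ, s.Coprime (C c).degree →
      ((aeval ((w ^ (level C / (C c).degree)) ^ s) (D c)).valuation : ℚ) = a * (C c).hodge s) →
    ∀ (Q : Type) [Fintype Q] (κ : Q → Σ c, (ZMod (C c).degree)ˣ),
    ∏ x, (aeval (evn (z ^ (level C / (C (κ x).1).degree)) (κ x).2) (D (κ x).1)) ^ N =
      (q : K) ^ (a * N * d) →
    2 * d = ∑ x, (C (κ x).1).rank →
    IsHodgeCharacter C κ

/-- (PAIR) Hodge characters of prime degree are paired. -/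
def S_PAIR : Prop :=
  ∀ (p : ℕ) [Fact p.Prime] (T : Type) [Fintype T] (a : T → ℕ), (∀ x, 0 < a x ∧ a x < p) →
    (∀ s : ℕ, s.Coprime p → ∑ x, (((s * a x) % p : ℕ) : ℚ) / p = (Fintype.card T : ℚ) / 2) →
    ∀ u : ℕ, 0 < u → u < p → Nat.card {x // a x = u} = Nat.card {x // a x = p - u}

end Pool.Agent.Y128.CY
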